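import Pool.Agent.Helper47.EX.Defs
import Pool.Agent.Helper81.EX.Kernel
import Pool.Agent.Helper81.EX.Window

/-!
Project EX (MP_2b4692_nt), module EX-4c: a lower bound for the mass of a window.
-/

set_option autoImplicit false

namespace Pool.Agent.Helper45.EX

open Pool.Agent.Helper36.DC Pool.Agent.Helper47.EX Finset
open Pool.Agent.Helper81.EX (KK_nonneg KK_le KK_lower KK_tail W2_sum W3_sum W_cos window_upper)

/-! ### Elementary facts -/

theorem par_mix (x : ℝ) (hx : 1 ≤ x) (hx1 : x ≤ 13 / 10) (n j : ℕ) : Par (mix x n j) := by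
  intro k
  unfold mix
  split_ifs
  · exact ⟨hx, hx1⟩
  · constructor <;> norm_num

theorem par_const (x : ℝ) (hx : 1 ≤ x) (hx1 : x ≤ 13 / 10) : Par (fun _ => x) :=
  fun _ => ⟨hx, hx1⟩

theorem W2_nonneg (p : ℕ → ℝ) (hp : Par p) (m u : ℕ) : 0 ≤ W2 p m u := by
  unfold W2
  refine prod_nonneg fun k _ => ?_
  have := (hp k).1
  positivity

theorem W3_nonneg (q : ℕ → ℝ) (hq : Par q) (w v : ℕ) : 0 ≤ W3 q w v := by
  unfold W3
  refine prod_nonneg fun k _ => ?_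
  have := (hq k).1
  positivity

theorem e_continuous : Continuous e := by
  unfold e
  fun_prop

theorem phi2_continuous (p : ℝ) : Continuous (phi2 p) := by
  unfold phi2
  have := e_continuous
  fun_prop

theorem phi3_continuous (q : ℝ) : Continuous (phi3 q) := by
  unfold phi3
  have := e_continuous
  fun_prop

theorem aa_continuous (p : ℕ → ℝ) (m : ℕ) : Continuous (aa p m) := by
  unfold aa
  refine continuous_finsetProd _ fun k _ => ?_
  exact (phi2_continuous (p k)).comp (by fun_prop)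

theorem bb_continuous (q : ℕ → ℝ) (w : ℕ) : Continuous (bb q w) := by
  unfold bb
  refine continuous_finsetProd _ fun k _ => ?_
  exact (phi3_continuous (q k)).comp (by fun_prop)

theorem phi2_nonneg (p ξ : ℝ) (hp : 1 ≤ p) : 0 ≤ phi2 p ξ := by
  unfold phi2; positivity

theorem phi3_nonneg (q ξ : ℝ) (hq : 1 ≤ q) : 0 ≤ phi3 q ξ := by
  unfold phi3; positivity

theorem aa_nonneg (p : ℕ → ℝ) (hp : Par p) (m : ℕ) (ξ : ℝ) : 0 ≤ aa p m ξ :=
  prod_nonneg fun k _ => phi2_nonneg _ _ (hp k).1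

theorem bb_nonneg (q : ℕ → ℝ) (hq : Par q) (w : ℕ) (ξ : ℝ) : 0 ≤ bb q w ξ :=
  prod_nonneg fun k _ => phi3_nonneg _ _ (hq k).1

/-- summation over blocks -/
theorem sum_blocks (U k : ℕ) (F : ℕ → ℝ) :
    ∑ u ∈ range (U * k), F u = ∑ u1 ∈ range k, ∑ u' ∈ range U, F (U * u1 + u') := by
  induction k with
  | zero => simp
  | succ k ih =>
    rw [mul_add, mul_one, sum_range_add, ih, sum_range_succ]

/-! ### The masses of the coarse cells -/

theorem W2_mix (x : ℝ) (m j u1 u' : ℕ) (hj : j ≤ m) :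
    W2 (mix x m j) m (2 ^ (m - j) * u1 + u') = W2 (fun _ => x) (m - j) u' / 2 ^ j := by
  obtain ⟨n, rfl⟩ := Nat.exists_eq_add_of_le' hj
  rw [Nat.add_sub_cancel]
  unfold W2
  rw [prod_range_add]
  have h1 : ∀ k ∈ range n, mix x (n + j) j k ^ ((2 ^ n * u1 + u') / 2 ^ k % 2) /
      (1 + mix x (n + j) j k) = x ^ (u' / 2 ^ k % 2) / (1 + x) := by
    intro k hk
    have hk' := mem_range.mp hk
    have hm : mix x (n + j) j k = x := by
      unfold mix
      rw [if_pos (by omega)]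
    have hd : (2 ^ n * u1 + u') / 2 ^ k % 2 = u' / 2 ^ k % 2 := by
      obtain ⟨r, rfl⟩ := Nat.exists_eq_add_of_lt hk'
      rw [show 2 ^ (k + r + 1) * u1 + u' = 2 ^ k * (2 * (2 ^ r * u1)) + u' by ring,
        Nat.mul_add_div (by positivity)]
      omega
    rw [hm, hd]
  have h2 : ∀ k ∈ range j, mix x (n + j) j (n + k) ^ ((2 ^ n * u1 + u') / 2 ^ (n + k) % 2) /
      (1 + mix x (n + j) j (n + k)) = 2⁻¹ := by
    intro k _
    have hm : mix x (n + j) j (n + k) = 1 := by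
      unfold mix
      rw [if_neg (by omega)]
    rw [hm]
    norm_num
  have h3 : (2⁻¹ : ℝ) ^ j = (2 ^ j)⁻¹ := inv_pow _ _
  rw [prod_congr rfl h1, prod_congr rfl h2, prod_const, card_range, h3, div_eq_mul_inv _ (2 ^ j)]

theorem W3_mix (x : ℝ) (w j v1 v' : ℕ) (hj : j ≤ w) :
    W3 (mix x w j) w (3 ^ (w - j) * v1 + v') = W3 (fun _ => x) (w - j) v' / 3 ^ j := by
  obtain ⟨n, rfl⟩ := Nat.exists_eq_add_of_le' hj
  rw [Nat.add_sub_cancel]
  unfold W3
  rw [prod_range_add]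
  have h1 : ∀ k ∈ range n, (mix x (n + j) j k)⁻¹ ^ ((3 ^ n * v1 + v') / 3 ^ k % 3) /
      (1 + (mix x (n + j) j k)⁻¹ + (mix x (n + j) j k)⁻¹ ^ 2) =
      x⁻¹ ^ (v' / 3 ^ k % 3) / (1 + x⁻¹ + x⁻¹ ^ 2) := by
    intro k hk
    have hk' := mem_range.mp hk
    have hm : mix x (n + j) j k = x := by
      unfold mix
      rw [if_pos (by omega)]
    have hd : (3 ^ n * v1 + v') / 3 ^ k % 3 = v' / 3 ^ k % 3 := by
      obtain ⟨r, rfl⟩ := Nat.exists_eq_add_of_lt hk'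
      rw [show 3 ^ (k + r + 1) * v1 + v' = 3 ^ k * (3 * (3 ^ r * v1)) + v' by ring,
        Nat.mul_add_div (by positivity)]
      omega
    rw [hm, hd]
  have h2 : ∀ k ∈ range j, (mix x (n + j) j (n + k))⁻¹ ^ ((3 ^ n * v1 + v') / 3 ^ (n + k) % 3) /
      (1 + (mix x (n + j) j (n + k))⁻¹ + (mix x (n + j) j (n + k))⁻¹ ^ 2) = 3⁻¹ := by
    intro k _
    have hm : mix x (n + j) j (n + k) = 1 := by
      unfold mix
      rw [if_neg (by omega)]
    rw [hm]
    norm_num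
  have h3 : (3⁻¹ : ℝ) ^ j = (3 ^ j)⁻¹ := inv_pow _ _
  rw [prod_congr rfl h1, prod_congr rfl h2, prod_const, card_range, h3, div_eq_mul_inv _ (3 ^ j)]

/-- number of integers in a half open interval -/
theorem card_Ico_ge {α β : ℝ} (hα : 0 ≤ α) :
    β - α - 1 ≤ ((Ico ⌈α⌉₊ ⌈β⌉₊).card : ℝ) := by
  rw [Nat.card_Ico]
  have h1 := Nat.le_ceil β
  have h2 := Nat.ceil_lt_add_one hα
  rcases le_total ⌈α⌉₊ ⌈β⌉₊ with h | h
  · rw [Nat.cast_sub h]
    linarith
  · rw [Nat.sub_eq_zero_of_le h]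
    have : (⌈β⌉₊ : ℝ) ≤ ⌈α⌉₊ := by exact_mod_cast h
    push_cast
    linarith

/-- the mass of the coarse window -/
theorem coarse (x : ℝ) (hx : 1 ≤ x) (hx1 : x ≤ 13 / 10) (m w j w0 : ℕ) (θ τ : ℝ)
    (hj : j ≤ m) (hw0 : w0 ≤ w) (h1 : 2 ^ j ≤ 3 ^ w0)
    (h3 : 3 ≤ w0) (hm : 6 ≤ m) (hθ : 1 / 3 ≤ θ)
    (hθw : (2 : ℝ) ^ m / 3 ≤ θ * 3 ^ w) (hθw1 : θ * 3 ^ w ≤ 2 ^ m)
    (hτ : -(θ * 3 ^ w) + 2 ^ m / 6 - 1 / 2 ≤ τ) (hτ1 : τ ≤ 5 / 6 * 2 ^ m) :
    1 / (14 * 2 ^ j) ≤ ∑ u ∈ range (2 ^ m), ∑ v ∈ range (3 ^ w),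
      (if |(u : ℝ) - θ * v - τ| ≤ 2 * 2 ^ (m - j) then
        W2 (mix x m j) m u * W3 (mix x w w0) w v else 0) := by
  have hPm := par_mix x hx hx1 m j
  have hPw := par_mix x hx hx1 w w0
  have hPx := par_const x hx hx1
  have hθ0 : 0 < θ := by linarith
  set U : ℕ := 2 ^ (m - j) with hU
  set R : ℕ := 3 ^ (w - w0) with hR
  have hUm : U * 2 ^ j = 2 ^ m := by rw [hU, ← pow_add]; congr 1; omega
  have hRw : R * 3 ^ w0 = 3 ^ w := by rw [hR, ← pow_add]; congr 1; omega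
  have hU0 : (0 : ℝ) < U := by rw [hU]; positivity
  have hR0 : (0 : ℝ) < R := by rw [hR]; positivity
  have hUm' : (U : ℝ) * 2 ^ j = 2 ^ m := by exact_mod_cast hUm
  have hRw' : (R : ℝ) * 3 ^ w0 = 3 ^ w := by exact_mod_cast hRw
  have h1' : (2 : ℝ) ^ j ≤ 3 ^ w0 := by exact_mod_cast h1
  set V : ℝ := θ * R with hV
  have hV0 : 0 < V := by positivity
  have hVw : V * 3 ^ w0 = θ * 3 ^ w := by rw [hV, mul_assoc, hRw']
  have hVU : V ≤ U := by
    have : V * 3 ^ w0 ≤ U * 3 ^ w0 := by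
      rw [hVw]
      calc θ * 3 ^ w ≤ 2 ^ m := hθw1
        _ = U * 2 ^ j := hUm'.symm
        _ ≤ U * 3 ^ w0 := by gcongr
    exact le_of_mul_le_mul_right this (by positivity)
  -- rewriting the sum
  set F : ℕ → ℕ → ℝ := fun u v => if |(u : ℝ) - θ * v - τ| ≤ 2 * 2 ^ (m - j) then
        W2 (mix x m j) m u * W3 (mix x w w0) w v else 0 with hF
  have hF0 : ∀ u v, 0 ≤ F u v := by
    intro u v
    rw [hF]
    beta_reduce
    split_ifs
    · exact mul_nonneg (W2_nonneg _ hPm _ _) (W3_nonneg _ hPw _ _)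
    · exact le_refl 0
  have e1 : ∑ u ∈ range (2 ^ m), ∑ v ∈ range (3 ^ w), F u v =
      ∑ v1 ∈ range (3 ^ w0), ∑ u1 ∈ range (2 ^ j), ∑ v' ∈ range R, ∑ u' ∈ range U,
        F (U * u1 + u') (R * v1 + v') := by
    rw [sum_comm, ← hRw, sum_blocks]
    refine sum_congr rfl fun v1 _ => ?_
    rw [sum_comm (s := range (2 ^ j))]
    refine sum_congr rfl fun v' _ => ?_
    rw [← hUm, sum_blocks]
  -- the good coarse cells
  set α : ℝ := max 0 (-τ) / V with hα
  set β : ℝ := min (θ * 3 ^ w) (2 ^ m - τ) / V with hβ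
  have hα0 : 0 ≤ α := by positivity
  have h2m : (64 : ℝ) ≤ 2 ^ m := by
    calc (64 : ℝ) = 2 ^ 6 := by norm_num
      _ ≤ 2 ^ m := pow_le_pow_right₀ (by norm_num) hm
  have hlen : (2 : ℝ) ^ m / 7 ≤ min (θ * 3 ^ w) (2 ^ m - τ) - max 0 (-τ) := by
    rcases le_total (θ * 3 ^ w) (2 ^ m - τ) with ha | ha <;>
    rcases le_total 0 (-τ) with hb | hb
    · rw [min_eq_left ha, max_eq_right hb]; linarith
    · rw [min_eq_left ha, max_eq_left hb]; linarith
    · rw [min_eq_right ha, max_eq_right hb]; linarith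
    · rw [min_eq_right ha, max_eq_left hb]; linarith
  have hβα : (3 : ℝ) ^ w0 / 7 ≤ β - α := by
    rw [hα, hβ, ← sub_div, le_div_iff₀ hV0]
    calc (3 : ℝ) ^ w0 / 7 * V = (V * 3 ^ w0) / 7 := by ring
      _ = θ * 3 ^ w / 7 := by rw [hVw]
      _ ≤ 2 ^ m / 7 := by gcongr
      _ ≤ _ := hlen
  have h27 : (27 : ℝ) ≤ 3 ^ w0 := by
    calc (27 : ℝ) = 3 ^ 3 := by norm_num
      _ ≤ 3 ^ w0 := pow_le_pow_right₀ (by norm_num) h3
  have hcard : (3 : ℝ) ^ w0 / 14 ≤ ((Ico ⌈α⌉₊ ⌈β⌉₊).card : ℝ) := by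
    have := card_Ico_ge (α := α) (β := β) hα0
    linarith
  have hsub : Ico ⌈α⌉₊ ⌈β⌉₊ ⊆ range (3 ^ w0) := by
    intro n hn
    rw [mem_Ico, Nat.ceil_le, Nat.lt_ceil] at hn
    rw [mem_range]
    have h2 : (n : ℝ) < 3 ^ w0 := by
      refine lt_of_lt_of_le hn.2 ?_
      rw [hβ, div_le_iff₀ hV0, mul_comm (3 ^ w0 : ℝ) V, hVw]
      exact min_le_left _ _
    exact_mod_cast h2
  have hcell : ∀ v1 ∈ Ico ⌈α⌉₊ ⌈β⌉₊, 1 / (2 ^ j * 3 ^ w0) ≤
      ∑ u1 ∈ range (2 ^ j), ∑ v' ∈ range R, ∑ u' ∈ range U, F (U * u1 + u') (R * v1 + v') := by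
    intro v1 hv1
    rw [mem_Ico, Nat.ceil_le, Nat.lt_ceil, hα, hβ, div_le_iff₀ hV0, lt_div_iff₀ hV0] at hv1
    obtain ⟨hv1a, hv1b⟩ := hv1
    have hz0 : 0 ≤ V * v1 + τ := by
      have := le_max_right 0 (-τ)
      linarith
    have hz1 : V * v1 + τ < 2 ^ m := by
      have := min_le_right (θ * 3 ^ w) (2 ^ m - τ)
      linarith
    set z : ℝ := V * v1 + τ with hz
    set u1 : ℕ := ⌊z / U⌋₊ with hu1
    have hu1a : (u1 : ℝ) * U ≤ z := by
      have := Nat.floor_le (a := z / U) (by positivity)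
      rw [← hu1, le_div_iff₀ hU0] at this
      exact this
    have hu1b : z < (u1 + 1) * U := by
      have := Nat.lt_floor_add_one (z / U)
      rw [← hu1, div_lt_iff₀ hU0] at this
      exact this
    have hu1m : u1 ∈ range (2 ^ j) := by
      rw [mem_range]
      have : (u1 : ℝ) < 2 ^ j := by
        have h5 : (u1 : ℝ) * U < 2 ^ j * U := by
          rw [mul_comm (2 ^ j : ℝ), hUm']
          exact lt_of_le_of_lt hu1a hz1
        exact lt_of_mul_lt_mul_right h5 hU0.le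
      exact_mod_cast this
    have hval : ∑ v' ∈ range R, ∑ u' ∈ range U, F (U * u1 + u') (R * v1 + v') =
        1 / (2 ^ j * 3 ^ w0) := by
      have e2 : ∀ v' ∈ range R, ∀ u' ∈ range U, F (U * u1 + u') (R * v1 + v') =
          W2 (fun _ => x) (m - j) u' / 2 ^ j * (W3 (fun _ => x) (w - w0) v' / 3 ^ w0) := by
        intro v' hv' u' hu'
        have hv'' : (v' : ℝ) < R := by exact_mod_cast mem_range.mp hv'
        have hu'' : (u' : ℝ) < U := by exact_mod_cast mem_range.mp hu'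
        have hv0 : (0 : ℝ) ≤ v' := Nat.cast_nonneg _
        have hu0 : (0 : ℝ) ≤ u' := Nat.cast_nonneg _
        have hθv : θ * v' < V := by rw [hV]; gcongr
        have hθv0 : 0 ≤ θ * v' := by positivity
        rw [hF]
        beta_reduce
        rw [if_pos, W2_mix x m j u1 u' hj, W3_mix x w w0 v1 v' hw0]
        have hUe : (2 : ℝ) ^ (m - j) = U := by rw [hU]; push_cast; ring
        rw [hUe]
        push_cast
        rw [abs_le]
        have e3 : θ * (R * v1 + v') = V * v1 + θ * v' := by rw [hV]; ring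
        rw [e3]
        constructor <;> nlinarith
      rw [sum_congr rfl fun v' hv' => sum_congr rfl fun u' hu' => e2 v' hv' u' hu']
      have e4 : ∀ v' : ℕ, ∑ u' ∈ range U, W2 (fun _ => x) (m - j) u' / 2 ^ j *
          (W3 (fun _ => x) (w - w0) v' / 3 ^ w0) = W3 (fun _ => x) (w - w0) v' / (2 ^ j * 3 ^ w0) := by
        intro v'
        rw [← sum_mul, ← sum_div, hU, W2_sum _ hPx]
        field_simp
      rw [sum_congr rfl fun v' _ => e4 v', ← sum_div, hR, W3_sum _ hPx]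
    rw [← hval]
    exact single_le_sum (f := fun u1 => ∑ v' ∈ range R, ∑ u' ∈ range U,
      F (U * u1 + u') (R * v1 + v')) (fun i _ => sum_nonneg fun _ _ => sum_nonneg fun _ _ => hF0 _ _)
      hu1m
  rw [e1]
  calc 1 / (14 * 2 ^ j) = (3 : ℝ) ^ w0 / 14 * (1 / (2 ^ j * 3 ^ w0)) := by field_simp
    _ ≤ ((Ico ⌈α⌉₊ ⌈β⌉₊).card : ℝ) * (1 / (2 ^ j * 3 ^ w0)) := by gcongr
    _ = ∑ v1 ∈ Ico ⌈α⌉₊ ⌈β⌉₊, 1 / (2 ^ j * 3 ^ w0) := by rw [sum_const, nsmul_eq_mul]
    _ ≤ ∑ v1 ∈ Ico ⌈α⌉₊ ⌈β⌉₊, ∑ u1 ∈ range (2 ^ j), ∑ v' ∈ range R, ∑ u' ∈ range U,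
        F (U * u1 + u') (R * v1 + v') := sum_le_sum hcell
    _ ≤ _ := sum_le_sum_of_subset_of_nonneg hsub
        fun _ _ _ => sum_nonneg fun _ _ => sum_nonneg fun _ _ => sum_nonneg fun _ _ => hF0 _ _

/-! ### Comparison of the two kernels -/

open MeasureTheory

/-- the kernel of small width as an integral over a larger interval -/
theorem KK_extend (a W y : ℝ) (ha : 0 < a) (haW : a ≤ W) :
    KK a y = ∫ ξ in (-W)..W, max 0 (1 - |ξ| / a) * Real.cos (2 * Real.pi * ξ * y) := by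
  have hc : Continuous fun ξ : ℝ => max 0 (1 - |ξ| / a) * Real.cos (2 * Real.pi * ξ * y) := by
    fun_prop
  rw [← intervalIntegral.integral_add_adjacent_intervals (a := -W) (b := -a) (c := W)
      (hc.intervalIntegrable _ _) (hc.intervalIntegrable _ _),
    ← intervalIntegral.integral_add_adjacent_intervals (a := -a) (b := a) (c := W)
      (hc.intervalIntegrable _ _) (hc.intervalIntegrable _ _)]
  have z1 : ∫ ξ in (-W)..(-a), max 0 (1 - |ξ| / a) * Real.cos (2 * Real.pi * ξ * y) = 0 := by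
    rw [intervalIntegral.integral_congr (g := fun _ => (0 : ℝ))]
    · simp
    · intro ξ hξ
      rw [Set.uIcc_of_le (by linarith)] at hξ
      have h1 : a ≤ |ξ| := by
        rw [abs_of_nonpos (by linarith [hξ.2])]
        linarith [hξ.2]
      have h2 : 1 - |ξ| / a ≤ 0 := by
        rw [sub_nonpos, le_div_iff₀ ha]
        linarith
      beta_reduce
      rw [max_eq_left h2, zero_mul]
  have z2 : ∫ ξ in a..W, max 0 (1 - |ξ| / a) * Real.cos (2 * Real.pi * ξ * y) = 0 := by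
    rw [intervalIntegral.integral_congr (g := fun _ => (0 : ℝ))]
    · simp
    · intro ξ hξ
      rw [Set.uIcc_of_le (by linarith)] at hξ
      have h1 : a ≤ |ξ| := le_trans hξ.1 (le_abs_self ξ)
      have h2 : 1 - |ξ| / a ≤ 0 := by
        rw [sub_nonpos, le_div_iff₀ ha]
        linarith
      beta_reduce
      rw [max_eq_left h2, zero_mul]
  rw [z1, z2, zero_add, add_zero]
  unfold KK
  refine intervalIntegral.integral_congr fun ξ hξ => ?_
  rw [Set.uIcc_of_le (by linarith)] at hξ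
  have h1 : |ξ| ≤ a := abs_le.mpr hξ
  have h2 : 0 ≤ 1 - |ξ| / a := by
    rw [sub_nonneg, div_le_iff₀ ha]
    linarith
  beta_reduce
  rw [max_eq_right h2]

/-- pointwise bounds of the difference of the two profiles -/
theorem profile (a W ξ : ℝ) (ha : 0 < a) (haW : a ≤ W) (hξ : |ξ| ≤ W) :
    |(1 - |ξ| / W) - max 0 (1 - |ξ| / a)| ≤ min 1 (|ξ| / a) := by
  have hW : 0 < W := by linarith
  have h0 := abs_nonneg ξ
  have h1 : |ξ| / W ≤ |ξ| / a := by gcongr
  have h2 : |ξ| / W ≤ 1 := by rw [div_le_one hW]; exact hξ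
  have h3 : 0 ≤ |ξ| / W := by positivity
  rcases le_total 0 (1 - |ξ| / a) with h | h
  · rw [max_eq_right h, min_eq_right (by linarith), abs_le]
    constructor <;> linarith
  · rw [max_eq_left h, min_eq_left (by linarith), abs_le]
    constructor <;> linarith

/-- the difference of the sums of the two kernels -/
theorem compare (p q : ℕ → ℝ) (hp : Par p) (hq : Par q) (m w : ℕ) (θ τ a W : ℝ) (ha : 0 < a)
    (haW : a ≤ W) :
    |∑ u ∈ range (2 ^ m), ∑ v ∈ range (3 ^ w), W2 p m u * W3 q w v * KK W (u - θ * v - τ) -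
      ∑ u ∈ range (2 ^ m), ∑ v ∈ range (3 ^ w), W2 p m u * W3 q w v * KK a (u - θ * v - τ)| ≤
      ∫ ξ in (-W)..W, min 1 (|ξ| / a) * (aa p m ξ * bb q w (θ * ξ)) := by
  have hW : 0 < W := by linarith
  have hca : Continuous (aa p m) := aa_continuous p m
  have hcb : Continuous (bb q w) := bb_continuous q w
  set g : ℝ → ℝ := fun ξ => (1 - |ξ| / W) - max 0 (1 - |ξ| / a) with hg
  have hgc : Continuous g := by rw [hg]; fun_prop
  have e1 : ∀ y : ℝ, KK W y - KK a y = ∫ ξ in (-W)..W, g ξ * Real.cos (2 * Real.pi * ξ * y) := by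
    intro y
    rw [KK_extend a W y ha haW]
    unfold KK
    rw [← intervalIntegral.integral_sub (Continuous.intervalIntegrable (by fun_prop) _ _)
      (Continuous.intervalIntegrable (by fun_prop) _ _)]
    refine intervalIntegral.integral_congr fun ξ _ => ?_
    rw [hg]
    ring
  have e2 : ∑ u ∈ range (2 ^ m), ∑ v ∈ range (3 ^ w), W2 p m u * W3 q w v *
        KK W (u - θ * v - τ) -
      ∑ u ∈ range (2 ^ m), ∑ v ∈ range (3 ^ w), W2 p m u * W3 q w v * KK a (u - θ * v - τ) =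
      ∫ ξ in (-W)..W, g ξ * ∑ u ∈ range (2 ^ m), ∑ v ∈ range (3 ^ w),
        W2 p m u * W3 q w v * Real.cos (2 * Real.pi * ξ * (u - θ * v - τ)) := by
    have e3 : ∀ ξ : ℝ, g ξ * ∑ u ∈ range (2 ^ m), ∑ v ∈ range (3 ^ w),
        W2 p m u * W3 q w v * Real.cos (2 * Real.pi * ξ * (u - θ * v - τ)) =
        ∑ u ∈ range (2 ^ m), ∑ v ∈ range (3 ^ w),
        W2 p m u * W3 q w v * (g ξ * Real.cos (2 * Real.pi * ξ * (u - θ * v - τ))) := by
      intro ξ
      rw [mul_sum]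
      refine sum_congr rfl fun u _ => ?_
      rw [mul_sum]
      refine sum_congr rfl fun v _ => ?_
      ring
    rw [intervalIntegral.integral_congr fun ξ _ => e3 ξ,
      intervalIntegral.integral_finsetSum fun u _ => Continuous.intervalIntegrable (by fun_prop) _ _,
      ← sum_sub_distrib]
    refine sum_congr rfl fun u _ => ?_
    rw [intervalIntegral.integral_finsetSum fun v _ => Continuous.intervalIntegrable
      (by fun_prop) _ _, ← sum_sub_distrib]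
    refine sum_congr rfl fun v _ => ?_
    rw [intervalIntegral.integral_const_mul, ← e1]
    ring
  rw [e2]
  have hsc : Continuous fun ξ : ℝ => ∑ u ∈ range (2 ^ m), ∑ v ∈ range (3 ^ w),
        W2 p m u * W3 q w v * Real.cos (2 * Real.pi * ξ * (u - θ * v - τ)) := by fun_prop
  refine (intervalIntegral.abs_integral_le_integral_abs (by linarith)).trans ?_
  refine intervalIntegral.integral_mono_on (by linarith)
    (Continuous.intervalIntegrable ((hgc.mul hsc).abs) _ _)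
    (Continuous.intervalIntegrable (by fun_prop) _ _) fun ξ hξ => ?_
  have hξ' : |ξ| ≤ W := abs_le.mpr hξ
  rw [abs_mul]
  exact mul_le_mul (profile a W ξ ha haW hξ') (W_cos p q hp hq m w θ τ ξ) (abs_nonneg _)
    (by positivity)

/-! ### The tail -/

/-- a pointwise bound for `1 / y ^ 2` -/
theorem inv_sq_le (K : ℕ) (y : ℝ) (hy : 1 / 2 < |y|) (hK : |y| ≤ K) :
    1 / y ^ 2 ≤ ∑ k ∈ range K, 1 / ((k : ℝ) + 1 / 2) ^ 2 *
      ((if |y - (k + 1)| ≤ 1 then 1 else 0) + (if |y + (k + 1)| ≤ 1 then 1 else 0)) := by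
  have hy0 : 0 < |y| := by linarith
  set k : ℕ := ⌊|y| - 1 / 2⌋₊ with hk
  have hk1 : (k : ℝ) ≤ |y| - 1 / 2 := Nat.floor_le (by linarith)
  have hk2 : |y| - 1 / 2 < k + 1 := Nat.lt_floor_add_one _
  have hkK : k ∈ range K := by
    rw [mem_range]
    have : (k : ℝ) < K := by linarith
    exact_mod_cast this
  have hterm : 1 / y ^ 2 ≤ 1 / ((k : ℝ) + 1 / 2) ^ 2 *
      ((if |y - (k + 1)| ≤ 1 then 1 else 0) + (if |y + (k + 1)| ≤ 1 then 1 else 0)) := by
    have h1 : 1 / y ^ 2 ≤ 1 / ((k : ℝ) + 1 / 2) ^ 2 := by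
      rw [← sq_abs y]
      have : (0 : ℝ) ≤ k := Nat.cast_nonneg _
      gcongr
      linarith
    have h2 : (1 : ℝ) ≤ (if |y - (k + 1)| ≤ 1 then 1 else 0) +
        (if |y + (k + 1)| ≤ 1 then 1 else 0) := by
      rcases le_total 0 y with h | h
      · rw [abs_of_nonneg h] at hk1 hk2
        rw [if_pos (by rw [abs_le]; constructor <;> linarith)]
        split_ifs <;> norm_num
      · rw [abs_of_nonpos h] at hk1 hk2
        rw [if_pos (c := |y + (k + 1)| ≤ 1) (by rw [abs_le]; constructor <;> linarith)]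
        split_ifs <;> norm_num
    calc 1 / y ^ 2 ≤ 1 / ((k : ℝ) + 1 / 2) ^ 2 * 1 := by rw [mul_one]; exact h1
      _ ≤ _ := by gcongr
  refine hterm.trans (single_le_sum (f := fun k : ℕ => 1 / ((k : ℝ) + 1 / 2) ^ 2 *
      ((if |y - (k + 1)| ≤ 1 then (1 : ℝ) else 0) + (if |y + (k + 1)| ≤ 1 then 1 else 0)))
      (fun i _ => ?_) hkK)
  positivity

theorem sum_inv_sq_le (K : ℕ) : ∑ k ∈ range K, 1 / ((k : ℝ) + 1 / 2) ^ 2 ≤ 5 := by
  have h : ∀ K : ℕ, ∑ k ∈ range (K + 1), 1 / ((k : ℝ) + 1 / 2) ^ 2 ≤ 5 - 1 / ((K : ℝ) + 1) := by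
    intro K
    induction K with
    | zero => norm_num
    | succ K ih =>
      rw [sum_range_succ]
      have h1 : 1 / (((K + 1 : ℕ) : ℝ) + 1 / 2) ^ 2 ≤
          1 / ((K : ℝ) + 1) - 1 / (((K + 1 : ℕ) : ℝ) + 1) := by
        push_cast
        have hK : (0 : ℝ) ≤ K := Nat.cast_nonneg _
        rw [div_sub_div _ _ (by positivity) (by positivity), div_le_div_iff₀ (by positivity)
          (by positivity)]
        nlinarith
      linarith
  rcases Nat.eq_zero_or_pos K with h0 | h0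
  · subst h0; simp
  · obtain ⟨n, rfl⟩ := Nat.exists_eq_add_of_le' h0
    have := h n
    have h1 : (0 : ℝ) ≤ 1 / ((n : ℝ) + 1) := by positivity
    linarith

theorem tail (p q : ℕ → ℝ) (hp : Par p) (hq : Par q) (m w : ℕ) (θ τ E0 : ℝ)
    (hE : EE p q m w θ ≤ E0) :
    ∑ u ∈ range (2 ^ m), ∑ v ∈ range (3 ^ w), (if |(u : ℝ) - θ * v - τ| ≤ 1 / 2 then 0 else
      W2 p m u * W3 q w v * (1 / ((u : ℝ) - θ * v - τ) ^ 2)) ≤ 50 / 2 ^ m * E0 := by
  obtain ⟨K, hK⟩ : ∃ K : ℕ, ∀ u ∈ range (2 ^ m), ∀ v ∈ range (3 ^ w),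
      |(u : ℝ) - θ * v - τ| ≤ K := by
    obtain ⟨K, hK⟩ := exists_nat_ge (2 ^ m + |θ| * 3 ^ w + |τ|)
    refine ⟨K, fun u hu v hv => le_trans ?_ hK⟩
    have hu' : (u : ℝ) ≤ 2 ^ m := by exact_mod_cast (mem_range.mp hu).le
    have hv' : (v : ℝ) ≤ 3 ^ w := by exact_mod_cast (mem_range.mp hv).le
    have hu0 : (0 : ℝ) ≤ u := Nat.cast_nonneg _
    have hv0 : (0 : ℝ) ≤ v := Nat.cast_nonneg _
    calc |(u : ℝ) - θ * v - τ| ≤ |(u : ℝ) - θ * v| + |τ| := abs_sub _ _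
      _ ≤ |(u : ℝ)| + |θ * v| + |τ| := by gcongr; exact abs_sub _ _
      _ = u + |θ| * v + |τ| := by rw [abs_mul, abs_of_nonneg hu0, abs_of_nonneg hv0]
      _ ≤ _ := by gcongr
  have hw : ∀ (u v : ℕ), 0 ≤ W2 p m u * W3 q w v :=
    fun u v => mul_nonneg (W2_nonneg _ hp _ _) (W3_nonneg _ hq _ _)
  set M : ℝ → ℝ := fun c => ∑ u ∈ range (2 ^ m), ∑ v ∈ range (3 ^ w),
    (if |(u : ℝ) - θ * v - (τ + c)| ≤ 1 then W2 p m u * W3 q w v else 0) with hM
  have hMle : ∀ c, M c ≤ 5 / 2 ^ m * E0 := fun c =>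
    (window_upper p q hp hq m w θ (τ + c)).trans (by gcongr)
  have h1 : ∑ u ∈ range (2 ^ m), ∑ v ∈ range (3 ^ w), (if |(u : ℝ) - θ * v - τ| ≤ 1 / 2 then 0 else
      W2 p m u * W3 q w v * (1 / ((u : ℝ) - θ * v - τ) ^ 2)) ≤
      ∑ u ∈ range (2 ^ m), ∑ v ∈ range (3 ^ w), ∑ k ∈ range K, 1 / ((k : ℝ) + 1 / 2) ^ 2 *
        ((if |(u : ℝ) - θ * v - (τ + (k + 1))| ≤ 1 then W2 p m u * W3 q w v else 0) +
        (if |(u : ℝ) - θ * v - (τ + (-(k + 1)))| ≤ 1 then W2 p m u * W3 q w v else 0)) := by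
    refine sum_le_sum fun u hu => sum_le_sum fun v hv => ?_
    split_ifs with h
    · refine sum_nonneg fun k _ => ?_
      have := hw u v
      positivity
    · have h2 := inv_sq_le K _ (not_le.mp h) (hK u hu v hv)
      refine (mul_le_mul_of_nonneg_left h2 (hw u v)).trans (le_of_eq ?_)
      rw [mul_sum]
      refine sum_congr rfl fun k _ => ?_
      rw [show (u : ℝ) - θ * v - (τ + (k + 1)) = (u : ℝ) - θ * v - τ - (k + 1) by ring,
        show (u : ℝ) - θ * v - (τ + (-(k + 1))) = (u : ℝ) - θ * v - τ + (k + 1) by ring]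
      split_ifs <;> ring
  refine h1.trans ?_
  have h2 : ∑ u ∈ range (2 ^ m), ∑ v ∈ range (3 ^ w), ∑ k ∈ range K, 1 / ((k : ℝ) + 1 / 2) ^ 2 *
        ((if |(u : ℝ) - θ * v - (τ + (k + 1))| ≤ 1 then W2 p m u * W3 q w v else 0) +
        (if |(u : ℝ) - θ * v - (τ + (-(k + 1)))| ≤ 1 then W2 p m u * W3 q w v else 0)) =
      ∑ k ∈ range K, 1 / ((k : ℝ) + 1 / 2) ^ 2 * (M (k + 1) + M (-(k + 1))) := by
    simp_rw [sum_comm (s := range (3 ^ w)) (t := range K)]
    rw [sum_comm]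
    refine sum_congr rfl fun k _ => ?_
    rw [hM]
    beta_reduce
    rw [← sum_add_distrib, mul_sum]
    refine sum_congr rfl fun u _ => ?_
    rw [← sum_add_distrib, mul_sum]
  rw [h2]
  have hE0 : 0 ≤ 5 / 2 ^ m * E0 := by
    refine le_trans ?_ (hMle 0)
    exact sum_nonneg fun u _ => sum_nonneg fun v _ => by
      have := hw u v
      positivity
  calc ∑ k ∈ range K, 1 / ((k : ℝ) + 1 / 2) ^ 2 * (M (k + 1) + M (-(k + 1)))
      ≤ ∑ k ∈ range K, 1 / ((k : ℝ) + 1 / 2) ^ 2 * (5 / 2 ^ m * E0 + 5 / 2 ^ m * E0) := by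
        gcongr
        · exact hMle _
        · exact hMle _
    _ = (∑ k ∈ range K, 1 / ((k : ℝ) + 1 / 2) ^ 2) * (5 / 2 ^ m * E0 + 5 / 2 ^ m * E0) := by
        rw [sum_mul]
    _ ≤ 5 * (5 / 2 ^ m * E0 + 5 / 2 ^ m * E0) := by
        gcongr
        exact sum_inv_sq_le K
    _ = 50 / 2 ^ m * E0 := by ring

/-! ### The lower bound -/

theorem window_lower (x : ℝ) (hx : 1 ≤ x) (hx1 : x ≤ 13 / 10) (m w j w0 L : ℕ) (θ τ E0 : ℝ)
    (hj : j ≤ m) (hw0 : w0 ≤ w) (h1 : 2 ^ j ≤ 3 ^ w0) (h2 : 3 ^ w0 < 3 * 2 ^ j)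
    (h3 : 3 ≤ w0) (hm : 6 ≤ m) (hθ : 1 / 3 ≤ θ) (hθ1 : θ ≤ 1)
    (hθw : (2 : ℝ) ^ m / 3 ≤ θ * 3 ^ w) (hθw1 : θ * 3 ^ w ≤ 2 ^ m)
    (hτ : -(θ * 3 ^ w) + 2 ^ m / 6 - 1 / 2 ≤ τ) (hτ1 : τ ≤ 5 / 6 * 2 ^ m)
    (hT : TT (mix x m j) (mix x w w0) m w j L θ ≤ 1 / 280)
    (hE : EE (mix x m j) (mix x w w0) m w θ ≤ E0) (hE0 : 1 ≤ E0) (hL : 10000 * E0 ≤ L) :
    1 / (280 * L * 2 ^ m) ≤ ∑ u ∈ range (2 ^ m), ∑ v ∈ range (3 ^ w),
      (if |(u : ℝ) - θ * v - τ| ≤ 1 / 2 then W2 (mix x m j) m u * W3 (mix x w w0) w v else 0) := by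
  have hp := par_mix x hx hx1 m j
  have hq := par_mix x hx hx1 w w0
  have hcoarse := coarse x hx hx1 m w j w0 θ τ hj hw0 h1 h3 hm hθ hθw hθw1 hτ hτ1
  have htail := tail (mix x m j) (mix x w w0) hp hq m w θ τ E0 hE
  have hπ1 := Real.pi_gt_three
  have hπ2 := Real.pi_lt_d2
  have hπ9 : 9 ≤ Real.pi ^ 2 := by nlinarith
  have hπ10 : Real.pi ^ 2 ≤ 10 := by nlinarith
  have hL0 : (10000 : ℝ) ≤ L := by linarith
  set W : ℝ := (L : ℝ) / 2 with hW
  set a : ℝ := 2 ^ j / (4 * 2 ^ m) with ha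
  have hW0 : 0 < W := by rw [hW]; linarith
  have ha0 : 0 < a := by positivity
  have hjm : (2 : ℝ) ^ j ≤ 2 ^ m := pow_le_pow_right₀ (by norm_num) hj
  have haW : a ≤ W := by
    have : a ≤ 1 := by
      rw [ha, div_le_one (by positivity)]
      have : (0 : ℝ) < 2 ^ m := by positivity
      linarith
    linarith
  have hcmp := compare (mix x m j) (mix x w w0) hp hq m w θ τ a W ha0 haW
  set SW : ℝ := ∑ u ∈ range (2 ^ m), ∑ v ∈ range (3 ^ w), W2 (mix x m j) m u *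
    W3 (mix x w w0) w v * KK W (u - θ * v - τ) with hSW
  set Sa : ℝ := ∑ u ∈ range (2 ^ m), ∑ v ∈ range (3 ^ w), W2 (mix x m j) m u *
    W3 (mix x w w0) w v * KK a (u - θ * v - τ) with hSa
  have hw : ∀ (u v : ℕ), 0 ≤ W2 (mix x m j) m u * W3 (mix x w w0) w v :=
    fun u v => mul_nonneg (W2_nonneg _ hp _ _) (W3_nonneg _ hq _ _)
  -- the fine scale against the coarse scale
  have hTT : (∫ ξ in (-W)..W, min 1 (|ξ| / a) * (aa (mix x m j) m ξ * bb (mix x w w0) w (θ * ξ)))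
      ≤ 1 / (280 * 2 ^ m) := by
    have e : TT (mix x m j) (mix x w w0) m w j L θ = 2 ^ m * ∫ ξ in (-W)..W, min 1 (|ξ| / a) *
        (aa (mix x m j) m ξ * bb (mix x w w0) w (θ * ξ)) := by
      unfold TT
      congr 1
      refine intervalIntegral.integral_congr fun ξ _ => ?_
      beta_reduce
      congr 2
      rw [ha]
      field_simp
    rw [e] at hT
    rw [le_div_iff₀ (by positivity)]
    linarith
  -- the coarse scale
  have hSa1 : 1 / (140 * 2 ^ m) ≤ Sa := by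
    have h4 : 4 / Real.pi ^ 2 * a * (1 / (14 * 2 ^ j)) ≤ Sa := by
      refine (mul_le_mul_of_nonneg_left hcoarse (by positivity)).trans ?_
      rw [hSa, mul_sum]
      refine sum_le_sum fun u _ => ?_
      rw [mul_sum]
      refine sum_le_sum fun v _ => ?_
      split_ifs with h
      · have h5 : |a * ((u : ℝ) - θ * v - τ)| ≤ 1 / 2 := by
          rw [abs_mul, abs_of_pos ha0]
          calc a * |(u : ℝ) - θ * v - τ| ≤ a * (2 * 2 ^ (m - j)) := by gcongr
            _ = 1 / 2 := by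
              have : (2 : ℝ) ^ m = 2 ^ (m - j) * 2 ^ j := by
                rw [← pow_add]; congr 1; omega
              rw [ha, this]
              field_simp
              norm_num
        have h6 := KK_lower a _ ha0 h5
        rw [mul_comm]
        exact mul_le_mul_of_nonneg_left h6 (hw u v)
      · rw [mul_zero]
        exact mul_nonneg (hw u v) (KK_nonneg _ _ ha0)
    refine le_trans ?_ h4
    have e : 4 / Real.pi ^ 2 * a * (1 / (14 * 2 ^ j)) = 1 / (14 * Real.pi ^ 2 * 2 ^ m) := by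
      rw [ha]
      field_simp
    rw [e]
    gcongr
    linarith
  have hSW1 : 1 / (280 * 2 ^ m) ≤ SW := by
    have h4 := (abs_le.mp (hcmp.trans hTT)).1
    have e : (1 : ℝ) / (140 * 2 ^ m) - 1 / (280 * 2 ^ m) = 1 / (280 * 2 ^ m) := by
      field_simp
      norm_num
    linarith
  -- upper bound
  set S0 : ℝ := ∑ u ∈ range (2 ^ m), ∑ v ∈ range (3 ^ w),
      (if |(u : ℝ) - θ * v - τ| ≤ 1 / 2 then W2 (mix x m j) m u * W3 (mix x w w0) w v else 0) with hS0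
  have hSW2 : SW ≤ W * S0 + 1 / (Real.pi ^ 2 * W) * (50 / 2 ^ m * E0) := by
    refine le_trans ?_ (add_le_add (le_refl (W * S0))
      (mul_le_mul_of_nonneg_left htail (by positivity)))
    rw [hSW, hS0, mul_sum, mul_sum, ← sum_add_distrib]
    refine sum_le_sum fun u _ => ?_
    rw [mul_sum, mul_sum, ← sum_add_distrib]
    refine sum_le_sum fun v _ => ?_
    split_ifs with h
    · rw [mul_zero, add_zero, mul_comm W]
      exact mul_le_mul_of_nonneg_left (KK_le _ _ hW0) (hw u v)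
    · rw [mul_zero, zero_add]
      have hy : (u : ℝ) - θ * v - τ ≠ 0 := by
        intro h0
        rw [h0] at h
        norm_num at h
      have h5 := KK_tail W _ hW0 hy
      calc W2 (mix x m j) m u * W3 (mix x w w0) w v * KK W ((u : ℝ) - θ * v - τ)
          ≤ W2 (mix x m j) m u * W3 (mix x w w0) w v *
            (1 / (Real.pi ^ 2 * W * ((u : ℝ) - θ * v - τ) ^ 2)) :=
          mul_le_mul_of_nonneg_left h5 (hw u v)
        _ = _ := by
          field_simp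
  have h4 : 1 / (Real.pi ^ 2 * W) * (50 / 2 ^ m * E0) ≤ 1 / (900 * 2 ^ m) := by
    have e : 1 / (Real.pi ^ 2 * W) * (50 / 2 ^ m * E0) = (100 * E0) / (Real.pi ^ 2 * L) / 2 ^ m := by
      rw [hW]
      field_simp
      norm_num
    have e2 : (1 : ℝ) / (900 * 2 ^ m) = 1 / 900 / 2 ^ m := by field_simp
    have e3 : 100 * E0 / (Real.pi ^ 2 * L) ≤ 1 / 900 := by
      have hLp : (0 : ℝ) < L := by linarith
      rw [div_le_div_iff₀ (by positivity) (by norm_num)]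
      nlinarith
    rw [e, e2]
    exact div_le_div_of_nonneg_right e3 (by positivity)
  have h5 : 1 / (560 * 2 ^ m) ≤ W * S0 := by
    have e : (1 : ℝ) / (560 * 2 ^ m) ≤ 1 / (280 * 2 ^ m) - 1 / (900 * 2 ^ m) := by
      have e1 : (1 : ℝ) / (280 * 2 ^ m) - 1 / (900 * 2 ^ m) = (1 / 280 - 1 / 900) / 2 ^ m := by
        field_simp
      have e2 : (1 : ℝ) / (560 * 2 ^ m) = 1 / 560 / 2 ^ m := by field_simp
      rw [e1, e2]
      gcongr
      norm_num
    linarith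
  have e : (1 : ℝ) / (280 * L * 2 ^ m) = 1 / (560 * 2 ^ m) / W := by
    rw [hW]
    field_simp
    norm_num
  rw [e, div_le_iff₀ hW0]
  linarith

end Pool.Agent.Helper45.EX
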